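import Pool.Agent.Run7.h381.WU.Stm

/-!
# Project WU (MP_688e31_pr): pieces T4, T5, T8 (helper957)
-/

set_option autoImplicit false

namespace Run7.h957.WU

open MeasureTheory Filter Finset
open scoped ENNReal Topology unitInterval
open Pool.Agent.TH968.UST (Conn IsSpan trees wired touch ustProb)
open Run7.h381.WU

variable {V : Type}

theorem _root_.Pool.Agent.TH968.UST.Conn.refl957 (r : Setoid V) (T : Set (Sym2 V)) (a : V) : Conn r T a a :=
  Relation.EqvGen.refl a

theorem _root_.Pool.Agent.TH968.UST.Conn.sy957 {r : Setoid V} {T : Set (Sym2 V)} {a b : V} (h : Conn r T a b) : Conn r T b a :=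
  Relation.EqvGen.symm _ _ h

theorem _root_.Pool.Agent.TH968.UST.Conn.tr957 {r : Setoid V} {T : Set (Sym2 V)} {a b c : V} (h : Conn r T a b)
    (h' : Conn r T b c) : Conn r T a c :=
  Relation.EqvGen.trans _ _ _ h h'

theorem _root_.Pool.Agent.TH968.UST.Conn.edge957 {r : Setoid V} {T : Set (Sym2 V)} {a b : V} (h : s(a, b) ∈ T) : Conn r T a b :=
  Relation.EqvGen.rel _ _ (Or.inr h)

theorem _root_.Pool.Agent.TH968.UST.Conn.rel957 {r : Setoid V} {T : Set (Sym2 V)} {a b : V} (h : r a b) : Conn r T a b :=
  Relation.EqvGen.rel _ _ (Or.inl h)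

theorem _root_.Pool.Agent.TH968.UST.Conn.mono957 {r : Setoid V} {T T' : Set (Sym2 V)} {a b : V} (hT : T ⊆ T')
    (h : Conn r T a b) : Conn r T' a b := by
  induction h with
  | rel x y h => exact h.elim (fun h => Conn.rel957 h) (fun h => Conn.edge957 (hT h))
  | refl x => exact Conn.refl957 _ _ x
  | symm x y _ ih => exact ih.sy957
  | trans x y z _ _ ih1 ih2 => exact ih1.tr957 ih2

/-- if all the edges of `T` are connected by `T'`, then `T'` connects at least what `T` connects -/
theorem _root_.Pool.Agent.TH968.UST.Conn.of_edges957 {r : Setoid V} {T T' : Set (Sym2 V)} {a b : V}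
    (hT : ∀ x y, s(x, y) ∈ T → Conn r T' x y) (h : Conn r T a b) : Conn r T' a b := by
  induction h with
  | rel x y h => exact h.elim (fun h => Conn.rel957 h) (fun h => hT _ _ h)
  | refl x => exact Conn.refl957 _ _ x
  | symm x y _ ih => exact ih.sy957
  | trans x y z _ _ ih1 ih2 => exact ih1.tr957 ih2

/-- what one more edge connects -/
theorem _root_.Pool.Agent.TH968.UST.Conn.exchange957 {r : Setoid V} {S : Set (Sym2 V)} {c d x y : V}
    (h : Conn r (insert s(c, d) S) x y) :
    Conn r S x y ∨ (Conn r S x c ∧ Conn r S d y) ∨ (Conn r S x d ∧ Conn r S c y) := by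
  induction h with
  | rel x y h =>
    rcases h with h | h
    · exact Or.inl (Conn.rel957 h)
    · rcases h with h | h
      · rw [Sym2.eq_iff] at h
        rcases h with ⟨rfl, rfl⟩ | ⟨rfl, rfl⟩
        · exact Or.inr (Or.inl ⟨Conn.refl957 _ _ _, Conn.refl957 _ _ _⟩)
        · exact Or.inr (Or.inr ⟨Conn.refl957 _ _ _, Conn.refl957 _ _ _⟩)
      · exact Or.inl (Conn.edge957 h)
  | refl x => exact Or.inl (Conn.refl957 _ _ x)
  | symm x y _ ih =>
    rcases ih with h | ⟨h1, h2⟩ | ⟨h1, h2⟩
    · exact Or.inl h.sy957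
    · exact Or.inr (Or.inr ⟨h2.sy957, h1.sy957⟩)
    · exact Or.inr (Or.inl ⟨h2.sy957, h1.sy957⟩)
  | trans x y z _ _ ih1 ih2 =>
    rcases ih1 with h | ⟨h1, h2⟩ | ⟨h1, h2⟩
    · rcases ih2 with h' | ⟨h1', h2'⟩ | ⟨h1', h2'⟩
      · exact Or.inl (h.tr957 h')
      · exact Or.inr (Or.inl ⟨h.tr957 h1', h2'⟩)
      · exact Or.inr (Or.inr ⟨h.tr957 h1', h2'⟩)
    · rcases ih2 with h' | ⟨h1', h2'⟩ | ⟨h1', h2'⟩
      · exact Or.inr (Or.inl ⟨h1, h2.tr957 h'⟩)
      · exact Or.inr (Or.inl ⟨h1, h2'⟩)
      · exact Or.inl (h1.tr957 h2')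
    · rcases ih2 with h' | ⟨h1', h2'⟩ | ⟨h1', h2'⟩
      · exact Or.inr (Or.inr ⟨h1, h2.tr957 h'⟩)
      · exact Or.inl (h1.tr957 h2')
      · exact Or.inr (Or.inr ⟨h1, h2'⟩)

/-! ### T4 -/

theorem _root_.Pool.Agent.TH968.UST.Conn.mem_iff957 {C : Finset V} {S : Set (Sym2 V)} (hS : ∀ e ∈ S, ∀ a ∈ e, a ∈ C) {a b : V}
    (h : Conn ⊥ S a b) : a ∈ C ↔ b ∈ C := by
  induction h with
  | rel x y h =>
    rcases h with h | h
    · have : x = y := h
      rw [this]
    · exact iff_of_true (hS _ h _ (Sym2.mem_mk_left _ _)) (hS _ h _ (Sym2.mem_mk_right _ _))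
  | refl x => exact Iff.rfl
  | symm x y _ ih => exact ih.symm
  | trans x y z _ _ ih1 ih2 => exact ih1.trans ih2

theorem _root_.Pool.Agent.TH968.UST.Conn.wired_iff957 {C : Finset V} {S : Set (Sym2 V)} (hS : ∀ e ∈ S, ∀ a ∈ e, a ∈ C) {a b : V} :
    Conn (wired C) S a b ↔ Conn ⊥ S a b ∨ (a ∉ C ∧ b ∉ C) := by
  constructor
  · intro h
    induction h with
    | rel x y h =>
      rcases h with h | h
      · rcases h with h | h
        · exact Or.inl (h ▸ Conn.refl957 _ _ _)
        · exact Or.inr h
      · exact Or.inl (Conn.edge957 h)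
    | refl x => exact Or.inl (Conn.refl957 _ _ _)
    | symm x y _ ih => exact ih.imp (fun h => h.sy957) (fun h => ⟨h.2, h.1⟩)
    | trans x y z _ _ ih1 ih2 =>
      rcases ih1 with h | h
      · rcases ih2 with h' | h'
        · exact Or.inl (h.tr957 h')
        · exact Or.inr ⟨fun hx => h'.1 ((Conn.mem_iff957 hS h).1 hx), h'.2⟩
      · rcases ih2 with h' | h'
        · exact Or.inr ⟨h.1, fun hz => h.2 ((Conn.mem_iff957 hS h').2 hz)⟩
        · exact Or.inr ⟨h.1, h'.2⟩
  · rintro (h | h)
    · induction h with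
      | rel x y h =>
        rcases h with h | h
        · have : x = y := h
          exact this ▸ Conn.refl957 _ _ _
        · exact Conn.edge957 h
      | refl x => exact Conn.refl957 _ _ _
      | symm x y _ ih => exact ih.sy957
      | trans x y z _ _ ih1 ih2 => exact ih1.tr957 ih2
    · exact Conn.rel957 (Or.inr h)

theorem mem_ins {G : SimpleGraph V} {C : Finset V} {e : Sym2 V} :
    e ∈ ins G C ↔ (∀ a ∈ e, a ∈ C) ∧ e ∈ G.edgeSet := by
  classical
  rw [ins, Finset.mem_filter, Finset.mem_sym2_iff]

theorem T4 : S_T4 := by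
  intro V G C
  classical
  ext T
  simp only [trees, Finset.mem_filter, Finset.mem_powerset, IsSpan, Finset.coe_subset]
  refine and_congr_right fun hT => and_congr_right fun _ => ?_
  have hE : ∀ e ∈ (ins G C : Set (Sym2 V)), ∀ a ∈ e, a ∈ C := fun e he => (mem_ins.1 he).1
  have hT' : ∀ e ∈ (T : Set (Sym2 V)), ∀ a ∈ e, a ∈ C := fun e he => hE e (hT he)
  refine and_congr ?_ ?_
  · refine forall₂_congr fun a b => forall_congr' fun hab => ?_
    rw [Conn.wired_iff957 hT']
    have ha : a ∈ C := hE _ hab _ (Sym2.mem_mk_left _ _)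
    constructor
    · rintro (h | h)
      · exact h
      · exact absurd ha h.1
    · exact Or.inl
  · refine forall₂_congr fun a b => forall_congr' fun hab => ?_
    rw [Conn.wired_iff957 (fun e he => hT' e he.1)]
    have ha : a ∈ C := hT' _ hab _ (Sym2.mem_mk_left _ _)
    refine not_congr ?_
    constructor
    · rintro (h | h)
      · exact h
      · exact absurd ha h.1
    · exact Or.inl

/-! ### T5 -/

theorem card_le_aux (r : Setoid V) (E : Set (Sym2 V)) [DecidableEq (Sym2 V)] (T' : Finset (Sym2 V))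
    (hT' : IsSpan r E (T' : Set (Sym2 V))) (n : ℕ) : ∀ T : Finset (Sym2 V),
    IsSpan r E (T : Set (Sym2 V)) → (T \ T').card = n → T.card = T'.card := by
  induction n with
  | zero =>
    intro T hT hn
    have hsub : T ⊆ T' := by
      rw [Finset.card_eq_zero, Finset.sdiff_eq_empty_iff_subset] at hn
      exact hn
    have : T = T' := by
      refine le_antisymm hsub fun g hg => ?_
      by_contra hgT
      induction g using Sym2.ind with
      | _ a b =>
        refine hT'.2.2 a b hg (Conn.mono957 ?_ (hT.2.1 a b (hT'.1 hg)))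
        intro e he
        refine ⟨hsub he, ?_⟩
        rintro rfl
        exact hgT he
    rw [this]
  | succ n ih =>
    intro T hT hn
    have hne : (T \ T').Nonempty := by
      rw [← Finset.card_pos, hn]; exact Nat.succ_pos _
    obtain ⟨e, he⟩ := hne
    rw [Finset.mem_sdiff] at he
    induction e using Sym2.ind with
    | _ a b =>
      -- an edge of T' which is not connected by T \ {e}
      have hex : ∃ c d, s(c, d) ∈ T' ∧ ¬ Conn r ((T : Set (Sym2 V)) \ {s(a, b)}) c d := by
        by_contra hno
        push Not at hno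
        exact hT.2.2 a b he.1 (Conn.of_edges957 (fun x y hxy => hno x y hxy)
          (hT'.2.1 a b (hT.1 he.1)))
      obtain ⟨c, d, hcd, hncd⟩ := hex
      have hfe : s(c, d) ≠ s(a, b) := by
        intro h; exact he.2 (h ▸ hcd)
      have hfT : s(c, d) ∉ T := by
        intro h
        exact hncd (Conn.edge957 ⟨h, hfe⟩)
      set S : Set (Sym2 V) := (T : Set (Sym2 V)) \ {s(a, b)} with hS
      have hTS : (T : Set (Sym2 V)) = insert s(a, b) S := by
        ext g
        simp only [hS, Set.mem_insert_iff, Set.mem_sdiff, Set.mem_singleton_iff]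
        constructor
        · intro h
          by_cases hg : g = s(a, b)
          · exact Or.inl hg
          · exact Or.inr ⟨h, hg⟩
        · rintro (h | h)
          · rw [h]; exact he.1
          · exact h.1
      have hTcd : Conn r (insert s(a, b) S) c d := by
        rw [← hTS]; exact hT.2.1 c d (hT'.1 hcd)
      set T'' : Finset (Sym2 V) := insert s(c, d) (T.erase s(a, b)) with hT''
      have hT''S : (T'' : Set (Sym2 V)) = insert s(c, d) S := by
        rw [hT'', Finset.coe_insert, Finset.coe_erase]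
      have hcard : T''.card = T.card := by
        rw [hT'', Finset.card_insert_of_notMem (fun h => hfT (Finset.mem_of_mem_erase h)),
          Finset.card_erase_of_mem he.1]
        have : 0 < T.card := Finset.card_pos.2 ⟨_, he.1⟩
        omega
      -- T'' connects a and b
      have hab'' : Conn r (T'' : Set (Sym2 V)) a b := by
        rw [hT''S]
        have hm : S ⊆ insert s(c, d) S := Set.subset_insert _ _
        have hcd' : Conn r (insert s(c, d) S) c d := Conn.edge957 (Set.mem_insert _ _)
        rcases Conn.exchange957 hTcd with h | ⟨h1, h2⟩ | ⟨h1, h2⟩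
        · exact absurd h hncd
        · -- c ~ a, b ~ d
          exact (Conn.mono957 hm h1).sy957.tr957 (hcd'.tr957 (Conn.mono957 hm h2).sy957)
        · -- c ~ b, a ~ d
          exact (Conn.mono957 hm h2).tr957 (hcd'.sy957.tr957 (Conn.mono957 hm h1))
      have hspan : IsSpan r E (T'' : Set (Sym2 V)) := by
        refine ⟨?_, ?_, ?_⟩
        · rw [hT''S]
          intro g hg
          rcases hg with rfl | hg
          · exact hT'.1 hcd
          · exact hT.1 hg.1
        · intro x y hxy
          refine Conn.of_edges957 ?_ (hT.2.1 x y hxy)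
          intro u v huv
          by_cases hg : s(u, v) = s(a, b)
          · rw [Sym2.eq_iff] at hg
            rcases hg with ⟨rfl, rfl⟩ | ⟨rfl, rfl⟩
            · exact hab''
            · exact hab''.sy957
          · rw [hT''S]
            exact Conn.edge957 (Or.inr ⟨huv, hg⟩)
        · intro x y hxy hcon
          by_cases hg : s(x, y) = s(c, d)
          · have h1 : (T'' : Set (Sym2 V)) \ {s(x, y)} ⊆ S := by
              rw [hT''S, hg]
              rintro g ⟨hg1, hg2⟩
              rcases hg1 with rfl | hg1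
              · exact absurd rfl hg2
              · exact hg1
            have h2 := Conn.mono957 h1 hcon
            rw [Sym2.eq_iff] at hg
            rcases hg with ⟨rfl, rfl⟩ | ⟨rfl, rfl⟩
            · exact hncd h2
            · exact hncd h2.sy957
          · have hxyS : s(x, y) ∈ S := by
              have : s(x, y) ∈ (T'' : Set (Sym2 V)) := hxy
              rw [hT''S] at this
              rcases this with h | h
              · exact absurd h hg
              · exact h
            have h1 : (T'' : Set (Sym2 V)) \ {s(x, y)} ⊆ insert s(c, d) (S \ {s(x, y)}) := by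
              rw [hT''S]
              rintro g ⟨hg1, hg2⟩
              rcases hg1 with rfl | hg1
              · exact Or.inl rfl
              · exact Or.inr ⟨hg1, hg2⟩
            have h2 := Conn.mono957 h1 hcon
            have hmT : S \ {s(x, y)} ⊆ (T : Set (Sym2 V)) \ {s(x, y)} := by
              rintro g ⟨hg1, hg2⟩
              exact ⟨hg1.1, hg2⟩
            have hmS : S \ {s(x, y)} ⊆ S := Set.sdiff_subset
            have hxyc : Conn r S x y := Conn.edge957 hxyS
            rcases Conn.exchange957 h2 with h | ⟨h3, h4⟩ | ⟨h3, h4⟩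
            · exact hT.2.2 x y hxyS.1 (Conn.mono957 hmT h)
            · -- x ~ c, d ~ y
              exact hncd ((Conn.mono957 hmS h3).sy957.tr957 (hxyc.tr957 (Conn.mono957 hmS h4).sy957))
            · -- x ~ d, c ~ y
              exact hncd ((Conn.mono957 hmS h4).tr957 (hxyc.sy957.tr957 (Conn.mono957 hmS h3)))
      have hn' : (T'' \ T').card = n := by
        have h1 : T'' \ T' = (T \ T').erase s(a, b) := by
          ext g
          simp only [hT'', Finset.mem_sdiff, Finset.mem_insert, Finset.mem_erase]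
          constructor
          · rintro ⟨h | h, h'⟩
            · exact absurd (h ▸ hcd) h'
            · exact ⟨h.1, h.2, h'⟩
          · rintro ⟨h1, h2, h3⟩
            exact ⟨Or.inr ⟨h1, h2⟩, h3⟩
        rw [h1, Finset.card_erase_of_mem (Finset.mem_sdiff.2 he), hn]
        rfl
      rw [← hcard]
      exact ih T'' hspan hn'

theorem T5 : S_T5 := by
  intro V r E T hT T' hT'
  classical
  rw [trees, Finset.mem_filter] at hT hT'
  exact card_le_aux r E T' hT'.2 _ T hT.2 rfl

/-! ### T8 -/

theorem T8 : S_T8 := by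
  intro V r E F A
  classical
  have hmem : ∀ T : Set (Sym2 V), IsSpan r (E : Set (Sym2 V)) T →
      ∃ T' ∈ trees r E, (T' : Set (Sym2 V)) = T := by
    intro T hT
    have hfin : T.Finite := E.finite_toSet.subset hT.1
    refine ⟨hfin.toFinset, ?_, hfin.coe_toFinset⟩
    rw [trees, Finset.mem_filter, Finset.mem_powerset]
    refine ⟨fun e he => ?_, ?_⟩
    · exact hT.1 (hfin.mem_toFinset.1 he)
    · rw [hfin.coe_toFinset]; exact hT
  have hmem' : ∀ T ∈ trees r E, IsSpan r (E : Set (Sym2 V)) (T : Set (Sym2 V)) := by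
    intro T hT
    rw [trees, Finset.mem_filter] at hT
    exact hT.2
  have h1 : {T : Set (Sym2 V) | IsSpan r (E : Set (Sym2 V)) T} =
      (fun T : Finset (Sym2 V) => (T : Set (Sym2 V))) '' (trees r E : Set (Finset (Sym2 V))) := by
    ext T
    constructor
    · intro hT
      obtain ⟨T', h1, h2⟩ := hmem T hT
      exact ⟨T', h1, h2⟩
    · rintro ⟨T', h1, rfl⟩
      exact hmem' T' h1
  have h2 : {T : Set (Sym2 V) | IsSpan r (E : Set (Sym2 V)) T ∧ T ∩ (F : Set (Sym2 V)) = A} =
      (fun T : Finset (Sym2 V) => (T : Set (Sym2 V))) ''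
        (((trees r E).filter (fun T => (T : Set (Sym2 V)) ∩ F = A) : Finset (Finset (Sym2 V))) :
          Set (Finset (Sym2 V))) := by
    ext T
    constructor
    · rintro ⟨hT, hA⟩
      obtain ⟨T', h1, h2⟩ := hmem T hT
      refine ⟨T', ?_, h2⟩
      rw [Finset.mem_coe, Finset.mem_filter]
      refine ⟨h1, ?_⟩
      rw [h2]; exact hA
    · rintro ⟨T', h1, rfl⟩
      rw [Finset.mem_coe, Finset.mem_filter] at h1
      exact ⟨hmem' T' h1.1, h1.2⟩
  have hinj : Function.Injective (fun T : Finset (Sym2 V) => (T : Set (Sym2 V))) :=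
    Finset.coe_injective
  rw [ustProb, h1, h2, Set.ncard_image_of_injective _ hinj, Set.ncard_image_of_injective _ hinj,
    Set.ncard_coe_finset, Set.ncard_coe_finset, Av]
  congr 1
  rw [Finset.sum_ite, Finset.sum_const_zero, add_zero, Finset.sum_const, nsmul_eq_mul, mul_one]

theorem T45 : S_T4 ∧ S_T5 ∧ S_T8 := ⟨T4, T5, T8⟩

end Run7.h957.WU
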