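import Pool.Agent.Run7.h381.WU.Stm

/-!
# Project WU (MP_688e31_pr): piece WALK (helper957)
-/

set_option autoImplicit false

namespace Run7.h957.WU

open MeasureTheory Filter Finset
open scoped ENNReal Topology unitInterval
open Pool.Agent.H424R3.Pow (RandomRootedGraph graphSigma hitWithin returnWithin nbrAvg Recurrent)
open Run7.h381.WU

section walk

variable {V : Type} {G : SimpleGraph V}

theorem nbrAvg_eq (hG : ∀ x, (G.neighborSet x).Finite) (f : V → ℝ) (x : V) :
    nbrAvg G f x = (∑ y ∈ (hG x).toFinset, f y) / ((hG x).toFinset.card : ℝ) := by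
  rw [nbrAvg, finsum_mem_eq_finite_toFinset_sum _ (hG x), Set.ncard_eq_toFinset_card _ (hG x)]

/-- one step of the walk, as a linear map -/
noncomputable def PL (hG : ∀ x, (G.neighborSet x).Finite) : (V → ℝ) →ₗ[ℝ] (V → ℝ) where
  toFun := nbrAvg G
  map_add' f g := by
    ext x
    rw [Pi.add_apply, nbrAvg_eq hG, nbrAvg_eq hG, nbrAvg_eq hG, ← add_div, ← Finset.sum_add_distrib]
    rfl
  map_smul' c f := by
    ext x
    rw [Pi.smul_apply, nbrAvg_eq hG, nbrAvg_eq hG, RingHom.id_apply, smul_eq_mul, ← mul_div_assoc,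
      Finset.mul_sum]
    rfl

theorem PL_apply (hG : ∀ x, (G.neighborSet x).Finite) (f : V → ℝ) : PL hG f = nbrAvg G f := rfl

theorem PL_pow (hG : ∀ x, (G.neighborSet x).Finite) (t : ℕ) (f : V → ℝ) :
    ((PL hG) ^ t) f = (nbrAvg G)^[t] f := by
  rw [Module.End.pow_apply]
  rfl

/-- the averaging, as a linear functional -/
noncomputable def GLin (hG : ∀ x, (G.neighborSet x).Finite) (N : ℕ) (x : V) : (V → ℝ) →ₗ[ℝ] ℝ :=
  (N : ℝ)⁻¹ • ∑ t ∈ range N, (LinearMap.proj x).comp ((PL hG) ^ t)

theorem GLin_apply (hG : ∀ x, (G.neighborSet x).Finite) (N : ℕ) (x : V) (g : V → ℝ) :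
    GLin hG N x g = GA G N g x := by
  rw [GLin, LinearMap.smul_apply, LinearMap.sum_apply, GA, smul_eq_mul, div_eq_inv_mul]
  congr 1
  refine Finset.sum_congr rfl fun t _ => ?_
  rw [LinearMap.comp_apply, PL_pow, LinearMap.proj_apply]

theorem nbrAvg_mono (hG : ∀ x, (G.neighborSet x).Finite) {f g : V → ℝ} (h : ∀ x, f x ≤ g x)
    (x : V) : nbrAvg G f x ≤ nbrAvg G g x := by
  rw [nbrAvg_eq hG, nbrAvg_eq hG]
  exact div_le_div_of_nonneg_right (Finset.sum_le_sum fun y _ => h y) (Nat.cast_nonneg _)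

theorem nbrAvg_const (hG : ∀ x, (G.neighborSet x).Finite) (c : ℝ) (x : V)
    (hx : (G.neighborSet x).Nonempty) : nbrAvg G (fun _ => c) x = c := by
  rw [nbrAvg_eq hG, Finset.sum_const, nsmul_eq_mul]
  have : (0 : ℝ) < ((hG x).toFinset.card : ℝ) := by
    rw [Nat.cast_pos, Finset.card_pos]
    obtain ⟨y, hy⟩ := hx
    exact ⟨y, (hG x).mem_toFinset.2 hy⟩
  field_simp

theorem nbrAvg_isolated (x : V) (hx : ¬ (G.neighborSet x).Nonempty) (f : V → ℝ) :
    nbrAvg G f x = 0 := by
  rw [Set.not_nonempty_iff_eq_empty] at hx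
  rw [nbrAvg, hx]
  simp

theorem nbrAvg_abs (hG : ∀ x, (G.neighborSet x).Finite) (f : V → ℝ) (x : V) :
    |nbrAvg G f x| ≤ nbrAvg G (fun y => |f y|) x := by
  rw [nbrAvg_eq hG, nbrAvg_eq hG, abs_div, Nat.abs_cast]
  exact div_le_div_of_nonneg_right (Finset.abs_sum_le_sum_abs _ _) (Nat.cast_nonneg _)

theorem nbrAvg_const_le (hG : ∀ x, (G.neighborSet x).Finite) (c : ℝ) (hc : 0 ≤ c) (x : V) :
    nbrAvg G (fun _ => c) x ≤ c := by
  by_cases hx : (G.neighborSet x).Nonempty
  · rw [nbrAvg_const hG c x hx]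
  · rw [nbrAvg_isolated x hx]; exact hc

theorem nbrAvg_bound (hG : ∀ x, (G.neighborSet x).Finite) {f : V → ℝ} {c : ℝ} (hc : 0 ≤ c)
    (h : ∀ x, |f x| ≤ c) (x : V) : |nbrAvg G f x| ≤ c :=
  (nbrAvg_abs hG f x).trans ((nbrAvg_mono hG h x).trans (nbrAvg_const_le hG c hc x))

theorem iter_bound (hG : ∀ x, (G.neighborSet x).Finite) {f : V → ℝ} {c : ℝ} (hc : 0 ≤ c)
    (h : ∀ x, |f x| ≤ c) (t : ℕ) : ∀ x, |(nbrAvg G)^[t] f x| ≤ c := by
  induction t with
  | zero => exact h
  | succ t ih =>
    intro x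
    rw [Function.iterate_succ_apply']
    exact nbrAvg_bound hG hc ih x

theorem iter_nonneg (hG : ∀ x, (G.neighborSet x).Finite) {f : V → ℝ}
    (h : ∀ x, 0 ≤ f x) (t : ℕ) : ∀ x, 0 ≤ (nbrAvg G)^[t] f x := by
  induction t with
  | zero => exact h
  | succ t ih =>
    intro x
    rw [Function.iterate_succ_apply', nbrAvg_eq hG]
    exact div_nonneg (Finset.sum_nonneg fun y _ => ih y) (Nat.cast_nonneg _)

theorem GA_bound (hG : ∀ x, (G.neighborSet x).Finite) {N : ℕ} (hN : 1 ≤ N) {f : V → ℝ}
    (h : ∀ x, |f x| ≤ 1) (x : V) : |GA G N f x| ≤ 1 := by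
  have hN' : (0 : ℝ) < N := by exact_mod_cast hN
  rw [GA, abs_div, Nat.abs_cast, div_le_one hN']
  refine (Finset.abs_sum_le_sum_abs _ _).trans ?_
  refine (Finset.sum_le_sum fun t _ => iter_bound hG zero_le_one h t x).trans ?_
  simp

/-- telescoping -/
theorem GA_step (hG : ∀ x, (G.neighborSet x).Finite) {N : ℕ} (hN : 1 ≤ N) {f : V → ℝ}
    (h : ∀ x, |f x| ≤ 1) (x : V) : |GA G N f x - nbrAvg G (GA G N f) x| ≤ 2 / N := by
  have hN' : (0 : ℝ) < N := by exact_mod_cast hN
  have h1 : nbrAvg G (GA G N f) x = (∑ t ∈ range N, (nbrAvg G)^[t + 1] f x) / N := by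
    have : GA G N f = (N : ℝ)⁻¹ • ∑ t ∈ range N, (nbrAvg G)^[t] f := by
      ext z
      rw [GA, Pi.smul_apply, Finset.sum_apply, smul_eq_mul, div_eq_inv_mul]
    rw [this, ← PL_apply hG, map_smul, map_sum, Pi.smul_apply, Finset.sum_apply, smul_eq_mul,
      div_eq_inv_mul]
    congr 1
    refine Finset.sum_congr rfl fun t _ => ?_
    rw [Function.iterate_succ_apply', PL_apply]
  rw [h1, GA, ← sub_div, ← Finset.sum_sub_distrib, Finset.sum_range_sub', abs_div, Nat.abs_cast]
  refine div_le_div_of_nonneg_right ?_ hN'.le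
  have h2 := iter_bound hG zero_le_one h N x
  have h3 := h x
  rw [Function.iterate_zero, id]
  calc |f x - (nbrAvg G)^[N] f x| ≤ |f x| + |(nbrAvg G)^[N] f x| := abs_sub _ _
    _ ≤ 2 := by linarith

theorem GA_diff (hG : ∀ x, (G.neighborSet x).Finite) {N : ℕ} (hN : 1 ≤ N) {f : V → ℝ}
    (h : ∀ x, |f x| ≤ 1) (x : V) (M : ℕ) : ∀ z : V, |GA G N f z - GA G N f x| ≤
      2 * (1 - hitWithin G x M z) + 2 * M / N := by
  have hN' : (0 : ℝ) < N := by exact_mod_cast hN
  have htriv : ∀ z : V, |GA G N f z - GA G N f x| ≤ 2 := by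
    intro z
    have h1 := GA_bound hG hN h z
    have h2 := GA_bound hG hN h x
    calc |GA G N f z - GA G N f x| ≤ |GA G N f z| + |GA G N f x| := abs_sub _ _
      _ ≤ 2 := by linarith
  induction M with
  | zero =>
    intro z
    rw [hitWithin]
    by_cases hz : z = x
    · subst hz; simp
    · rw [if_neg hz]
      simpa using htriv z
  | succ M ih =>
    intro z
    have hpos : (0 : ℝ) ≤ 2 * ((M + 1 : ℕ) : ℝ) / N := by positivity
    rw [hitWithin]
    by_cases hz : z = x
    · subst hz
      rw [if_pos rfl, sub_self, abs_zero, sub_self, mul_zero, zero_add]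
      exact hpos
    · rw [if_neg hz]
      by_cases hi : (G.neighborSet z).Nonempty
      · have e1 : nbrAvg G (GA G N f) z - GA G N f x =
            nbrAvg G (fun y => GA G N f y - GA G N f x) z := by
          have : (fun y => GA G N f y - GA G N f x) = GA G N f - (fun _ => GA G N f x) := rfl
          rw [this, ← PL_apply hG, ← PL_apply hG, map_sub, Pi.sub_apply, PL_apply, PL_apply,
            nbrAvg_const hG _ _ hi]
        have e2 : nbrAvg G (fun y => 2 * (1 - hitWithin G x M y) + 2 * M / N) z =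
            2 * (1 - nbrAvg G (hitWithin G x M) z) + 2 * M / N := by
          have : (fun y => 2 * (1 - hitWithin G x M y) + 2 * M / N) =
              (fun _ => 2 + 2 * (M : ℝ) / N) - (2 : ℝ) • hitWithin G x M := by
            ext y
            rw [Pi.sub_apply, Pi.smul_apply, smul_eq_mul]
            ring
          rw [this, ← PL_apply hG, map_sub, map_smul, Pi.sub_apply, Pi.smul_apply, PL_apply,
            PL_apply, nbrAvg_const hG _ _ hi, smul_eq_mul]
          ring
        have h1 := GA_step hG hN h z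
        have h2 : |nbrAvg G (GA G N f) z - GA G N f x| ≤
            2 * (1 - nbrAvg G (hitWithin G x M) z) + 2 * M / N := by
          rw [e1, ← e2]
          exact (nbrAvg_abs hG _ z).trans (nbrAvg_mono hG ih z)
        have h3 : |GA G N f z - GA G N f x| ≤ |GA G N f z - nbrAvg G (GA G N f) z| +
            |nbrAvg G (GA G N f) z - GA G N f x| := abs_sub_le _ _ _
        have h4 : (2 : ℝ) * ((M + 1 : ℕ) : ℝ) / N = 2 * M / N + 2 / N := by
          push_cast; ring
        rw [h4]
        linarith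
      · rw [nbrAvg_isolated z hi]
        have := htriv z
        linarith

/-! ### range -/

open Classical in
/-- the vertices reached in exactly `t` steps -/
noncomputable def WW (hG : ∀ x, (G.neighborSet x).Finite) : ℕ → V → Finset V
  | 0, x => {x}
  | t + 1, x => (hG x).toFinset.biUnion (WW hG t)

open Classical in
theorem iter_congr (hG : ∀ x, (G.neighborSet x).Finite) (f f' : V → ℝ) (t : ℕ) :
    ∀ x, (∀ w ∈ WW hG t x, f w = f' w) → (nbrAvg G)^[t] f x = (nbrAvg G)^[t] f' x := by
  induction t with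
  | zero =>
    intro x h
    exact h x (by rw [WW]; exact Finset.mem_singleton_self x)
  | succ t ih =>
    intro x h
    rw [Function.iterate_succ_apply', Function.iterate_succ_apply', nbrAvg_eq hG, nbrAvg_eq hG]
    congr 1
    refine Finset.sum_congr rfl fun y hy => ih y fun w hw => h w ?_
    rw [WW, Finset.mem_biUnion]
    exact ⟨y, hy, hw⟩

theorem iter_one (hG : ∀ x, (G.neighborSet x).Finite) (hn : ∀ x, (G.neighborSet x).Nonempty)
    (t : ℕ) : (nbrAvg G)^[t] (fun _ => (1 : ℝ)) = fun _ => 1 := by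
  induction t with
  | zero => rfl
  | succ t ih =>
    rw [Function.iterate_succ_apply', ih]
    ext x
    exact nbrAvg_const hG 1 x (hn x)

theorem iter_support (hG : ∀ x, (G.neighborSet x).Finite) (f : V → ℝ) (hf : {y | f y ≠ 0}.Finite)
    (t : ℕ) : {y | (nbrAvg G)^[t] f y ≠ 0}.Finite := by
  induction t with
  | zero => exact hf
  | succ t ih =>
    refine (ih.biUnion (t := fun z => G.neighborSet z) fun z _ => hG z).subset ?_
    intro y hy
    rw [Set.mem_ofPred_eq, Function.iterate_succ_apply', nbrAvg_eq hG] at hy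
    have h1 : ∑ z ∈ (hG y).toFinset, (nbrAvg G)^[t] f z ≠ 0 := by
      intro h0
      rw [h0, zero_div] at hy
      exact hy rfl
    obtain ⟨z, hz, hz'⟩ := Finset.exists_ne_zero_of_sum_ne_zero h1
    rw [Set.mem_iUnion₂]
    refine ⟨z, hz', ?_⟩
    have : G.Adj y z := (hG y).mem_toFinset.1 hz
    exact this.symm

end walk

theorem WALK : S_WALK := by
  intro V G hG N hN
  classical
  have hN' : (0 : ℝ) < N := by exact_mod_cast hN
  have hhG : ∀ x w, hh G N x w = GLin hG N x (fun z => if z = w then 1 else 0) := by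
    intro x w
    rw [GLin_apply, hh]
  refine ⟨?_, ?_, ?_, ?_⟩
  · intro x w
    rw [hh, GA]
    refine div_nonneg (Finset.sum_nonneg fun t _ => iter_nonneg hG (fun z => ?_) t x) hN'.le
    split_ifs <;> norm_num
  · intro x y M W
    set sg : V → ℝ := fun w => SignType.sign (hh G N y w - hh G N x w) with hsg
    set g : V → ℝ := ∑ w ∈ W, sg w • (fun z => if z = w then (1 : ℝ) else 0) with hg
    have hgz : ∀ z, g z = if z ∈ W then sg z else 0 := by
      intro z
      rw [hg, Finset.sum_apply]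
      simp only [Pi.smul_apply, smul_eq_mul, mul_ite, mul_one, mul_zero]
      rw [Finset.sum_ite_eq]
    have hgb : ∀ z, |g z| ≤ 1 := by
      intro z
      rw [hgz]
      split_ifs
      · rw [hsg]
        rcases lt_trichotomy (hh G N y z - hh G N x z) 0 with h | h | h
        · simp [sign_neg h]
        · simp [h]
        · simp [sign_pos h]
      · simp
    have h1 := GA_diff hG hN hgb x M y
    have h2 : GA G N g y - GA G N g x = ∑ w ∈ W, |hh G N x w - hh G N y w| := by
      rw [← GLin_apply hG, ← GLin_apply hG, hg, map_sum, map_sum, ← Finset.sum_sub_distrib]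
      refine Finset.sum_congr rfl fun w _ => ?_
      rw [map_smul, map_smul, ← hhG, ← hhG, smul_eq_mul, smul_eq_mul, ← mul_sub, hsg,
        abs_sub_comm]
      exact sign_mul_self _
    rw [← h2]
    exact (le_abs_self _).trans h1
  · intro hn x
    set W : Finset V := (range N).biUnion (fun t => WW hG t x) with hW
    have hsub : ∀ t ∈ range N, ∀ w ∈ WW hG t x, w ∈ W := by
      intro t ht w hw
      rw [hW, Finset.mem_biUnion]
      exact ⟨t, ht, hw⟩
    refine ⟨W, ?_, ?_⟩
    · intro w hw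
      rw [hh, GA]
      rw [Finset.sum_eq_zero, zero_div]
      intro t ht
      rw [iter_congr hG _ (0 : V → ℝ) t x]
      · rw [← PL_pow hG, map_zero, Pi.zero_apply]
      · intro z hz
        have : z ≠ w := by
          rintro rfl
          exact hw (hsub t ht z hz)
        simp [this]
    · have e1 : ∑ w ∈ W, hh G N x w =
          GA G N (∑ w ∈ W, fun z => if z = w then (1 : ℝ) else 0) x := by
        rw [← GLin_apply hG, map_sum]
        exact Finset.sum_congr rfl fun w _ => hhG x w
      rw [e1, GA]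
      have e2 : ∀ t ∈ range N,
          (nbrAvg G)^[t] (∑ w ∈ W, fun z => if z = w then (1 : ℝ) else 0) x = 1 := by
        intro t ht
        rw [iter_congr hG _ (fun _ => (1 : ℝ)) t x, iter_one hG hn]
        intro z hz
        rw [Finset.sum_apply, Finset.sum_ite_eq, if_pos (hsub t ht z hz)]
      rw [Finset.sum_congr rfl e2, Finset.sum_const, Finset.card_range, nsmul_eq_mul, mul_one,
        div_self hN'.ne']
  · intro w
    have hfin : ∀ t ∈ range N, {y | (nbrAvg G)^[t] (fun z => if z = w then (1 : ℝ) else 0) y ≠ 0}.Finite := by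
      intro t _
      refine iter_support hG _ ?_ t
      refine (Set.finite_singleton w).subset ?_
      intro y hy
      by_contra h
      exact hy (if_neg h)
    refine ((range N).finite_toSet.biUnion hfin).subset ?_
    intro y hy
    rw [Set.mem_ofPred_eq, hhG, GLin_apply, GA] at hy
    have h1 : ∑ t ∈ range N, (nbrAvg G)^[t] (fun z => if z = w then (1 : ℝ) else 0) y ≠ 0 := by
      intro h0
      rw [h0, zero_div] at hy
      exact hy rfl
    obtain ⟨t, ht, ht'⟩ := Finset.exists_ne_zero_of_sum_ne_zero h1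
    rw [Set.mem_iUnion₂]
    exact ⟨t, ht, ht'⟩

end Run7.h957.WU
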